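import Mathlib

namespace Pool.Agent.Results.MP_01d095_an.EllTwoSum

section Defs

variable {X : Type*} [NormedAddCommGroup X] [NormedSpace ℝ X]

/-- The numerical radius `v(T)`. -/
noncomputable def numRadius (T : X →L[ℝ] X) : ℝ :=
  sSup {t : ℝ | ∃ (x : X) (f : X →L[ℝ] ℝ), ‖x‖ = 1 ∧ ‖f‖ = 1 ∧ f x = 1 ∧ t = |f (T x)|}

/-- The quotient norm `‖T + Z(X)‖`, where `Z(X)` is the set of the operators with numerical
radius `0` (skew-hermitian operators). -/
noncomputable def quotNorm (T : X →L[ℝ] X) : ℝ :=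
  sInf {t : ℝ | ∃ S : X →L[ℝ] X, numRadius S = 0 ∧ t = ‖T - S‖}

variable (X) in
/-- The second numerical index `n'(X)`. -/
noncomputable def secondIndex : ℝ :=
  sSup {k : ℝ | 0 ≤ k ∧ ∀ T : X →L[ℝ] X, k * quotNorm T ≤ numRadius T}

end Defs

section Basic

variable {X : Type*} [NormedAddCommGroup X] [NormedSpace ℝ X]

theorem bddAbove_num (T : X →L[ℝ] X) :
    BddAbove {t : ℝ | ∃ (x : X) (f : X →L[ℝ] ℝ), ‖x‖ = 1 ∧ ‖f‖ = 1 ∧ f x = 1 ∧
      t = |f (T x)|} := by
  refine ⟨‖T‖, ?_⟩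
  rintro t ⟨x, f, hx, hf, -, rfl⟩
  calc |f (T x)| = ‖f (T x)‖ := (Real.norm_eq_abs _).symm
    _ ≤ ‖f‖ * ‖T x‖ := f.le_opNorm _
    _ ≤ ‖f‖ * (‖T‖ * ‖x‖) := by gcongr; exact T.le_opNorm x
    _ = ‖T‖ := by rw [hf, hx]; ring

theorem le_numRadius (T : X →L[ℝ] X) {x : X} {f : X →L[ℝ] ℝ} (hx : ‖x‖ = 1) (hf : ‖f‖ = 1)
    (hfx : f x = 1) : |f (T x)| ≤ numRadius T :=
  le_csSup (bddAbove_num T) ⟨x, f, hx, hf, hfx, rfl⟩

theorem numRadius_nonneg (T : X →L[ℝ] X) : 0 ≤ numRadius T := by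
  apply Real.sSup_nonneg
  rintro t ⟨x, f, -, -, -, rfl⟩
  exact abs_nonneg _

theorem exists_pair [Nontrivial X] :
    ∃ (x : X) (f : X →L[ℝ] ℝ), ‖x‖ = 1 ∧ ‖f‖ = 1 ∧ f x = 1 := by
  obtain ⟨x, hx⟩ := exists_norm_eq X (zero_le_one' ℝ)
  obtain ⟨f, hf, hfx⟩ := exists_dual_vector ℝ x (by rw [hx]; exact one_ne_zero)
  exact ⟨x, f, hx, hf, by simpa [hx] using hfx⟩

theorem numRadius_le [Nontrivial X] (T : X →L[ℝ] X) {c : ℝ}
    (h : ∀ (x : X) (f : X →L[ℝ] ℝ), ‖x‖ = 1 → ‖f‖ = 1 → f x = 1 → |f (T x)| ≤ c) :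
    numRadius T ≤ c := by
  obtain ⟨x, f, hx, hf, hfx⟩ := exists_pair (X := X)
  refine csSup_le ⟨_, x, f, hx, hf, hfx, rfl⟩ ?_
  rintro t ⟨x, f, hx, hf, hfx, rfl⟩
  exact h x f hx hf hfx

theorem numRadius_zero [Nontrivial X] : numRadius (0 : X →L[ℝ] X) = 0 := by
  apply le_antisymm _ (numRadius_nonneg _)
  apply numRadius_le
  intro x f _ _ _
  simp

theorem quot_bddBelow (T : X →L[ℝ] X) :
    BddBelow {t : ℝ | ∃ S : X →L[ℝ] X, numRadius S = 0 ∧ t = ‖T - S‖} := by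
  refine ⟨0, ?_⟩
  rintro t ⟨S, -, rfl⟩
  exact norm_nonneg _

theorem one_le_quotNorm_id [Nontrivial X] : 1 ≤ quotNorm (ContinuousLinearMap.id ℝ X) := by
  refine le_csInf ⟨_, 0, numRadius_zero, rfl⟩ ?_
  rintro t ⟨S, hS, rfl⟩
  obtain ⟨x, f, hx, hf, hfx⟩ := exists_pair (X := X)
  have h1 : |f (S x)| ≤ 0 := hS ▸ le_numRadius S hx hf hfx
  have h2 : f (S x) = 0 := abs_nonpos_iff.1 h1
  calc (1 : ℝ) = f ((ContinuousLinearMap.id ℝ X - S) x) := by simp [h2, hfx]
    _ ≤ ‖f ((ContinuousLinearMap.id ℝ X - S) x)‖ := le_abs_self _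
    _ ≤ ‖f‖ * (‖ContinuousLinearMap.id ℝ X - S‖ * ‖x‖) :=
        (f.le_opNorm _).trans (by gcongr; exact ContinuousLinearMap.le_opNorm _ _)
    _ = ‖ContinuousLinearMap.id ℝ X - S‖ := by rw [hf, hx]; ring

theorem bddAbove_index [Nontrivial X] :
    BddAbove {k : ℝ | 0 ≤ k ∧ ∀ T : X →L[ℝ] X, k * quotNorm T ≤ numRadius T} := by
  refine ⟨1, ?_⟩
  rintro k ⟨hk, h⟩
  have h1 := h (ContinuousLinearMap.id ℝ X)
  have h2 : numRadius (ContinuousLinearMap.id ℝ X) ≤ 1 := by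
    apply numRadius_le
    intro x f _ _ hfx
    simp [hfx]
  have h3 := one_le_quotNorm_id (X := X)
  nlinarith

end Basic

/-- The inequality for a summand `Y` of `Z`, where the projection `P` onto `Y` along the other
summand satisfies: the norm does not increase when the `Y`-component is replaced by one of smaller
norm. -/
theorem core {Z Y : Type*} [NormedAddCommGroup Z] [NormedSpace ℝ Z] [NormedAddCommGroup Y]
    [NormedSpace ℝ Y] [Nontrivial Y] [Nontrivial Z] (P : Z →L[ℝ] Y) (J : Y →L[ℝ] Z)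
    (hPJ : ∀ u, P (J u) = u) (hJ : ∀ u, ‖J u‖ = ‖u‖) (hP : ∀ z, ‖P z‖ ≤ ‖z‖)
    (habs : ∀ z (u : Y), ‖u‖ ≤ ‖P z‖ → ‖J u + (z - J (P z))‖ ≤ ‖z‖) :
    secondIndex Z ≤ secondIndex Y := by
  apply csSup_le_csSup bddAbove_index
  · exact ⟨0, le_rfl, fun T => by rw [zero_mul]; exact numRadius_nonneg T⟩
  rintro k ⟨hk, h⟩
  refine ⟨hk, fun T => ?_⟩
  have h1 : numRadius (J.comp (T.comp P)) ≤ numRadius T := by
    apply numRadius_le
    intro x f hx hf hfx
    set g : Y →L[ℝ] ℝ := f.comp J with hg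
    set y : Y := P x with hy
    have hval : f ((J.comp (T.comp P)) x) = g (T y) := rfl
    rw [hval]
    have hmax : ∀ u : Y, ‖u‖ ≤ ‖y‖ → g u ≤ g y := by
      intro u hu
      have h3 : f (J u + (x - J y)) ≤ 1 := by
        calc f (J u + (x - J y)) ≤ ‖f (J u + (x - J y))‖ := le_abs_self _
          _ ≤ ‖f‖ * ‖J u + (x - J y)‖ := f.le_opNorm _
          _ ≤ 1 := by
              rw [hf, one_mul]
              exact (habs x u hu).trans hx.le
      rw [map_add, map_sub, hfx] at h3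
      show f (J u) ≤ f (J y)
      linarith
    have hy1 : ‖y‖ ≤ 1 := (hP x).trans hx.le
    have hg1 : ‖g‖ ≤ 1 := by
      apply ContinuousLinearMap.opNorm_le_bound _ zero_le_one
      intro u
      calc ‖g u‖ = ‖f (J u)‖ := rfl
        _ ≤ ‖f‖ * ‖J u‖ := f.le_opNorm _
        _ = 1 * ‖u‖ := by rw [hf, hJ]
    by_cases hy0 : y = 0
    · rw [hy0, map_zero, map_zero, abs_zero]; exact numRadius_nonneg T
    by_cases hg0 : g = 0
    · rw [hg0, _root_.zero_apply, abs_zero]; exact numRadius_nonneg T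
    have hyp : 0 < ‖y‖ := norm_pos_iff.2 hy0
    have hgp : 0 < ‖g‖ := norm_pos_iff.2 hg0
    -- `g y = ‖g‖ ‖y‖`
    have hgy : g y = ‖g‖ * ‖y‖ := by
      apply le_antisymm ((le_abs_self _).trans (g.le_opNorm y))
      have : ‖g‖ ≤ g y / ‖y‖ := by
        apply ContinuousLinearMap.opNorm_le_bound _
        · apply div_nonneg _ hyp.le
          have := hmax 0 (by simp)
          simpa using this
        · intro u
          by_cases hu0 : u = 0
          · simp [hu0]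
          have hup : 0 < ‖u‖ := norm_pos_iff.2 hu0
          have key : ∀ s : ℝ, |s| = 1 → s * g u ≤ g y / ‖y‖ * ‖u‖ := by
            intro s hs
            have h4 := hmax ((s * (‖y‖ / ‖u‖)) • u) (by
              rw [norm_smul, Real.norm_eq_abs, abs_mul, hs, one_mul,
                abs_of_pos (div_pos hyp hup)]
              field_simp
              exact le_rfl)
            rw [map_smul, smul_eq_mul] at h4
            calc s * g u = (s * (‖y‖ / ‖u‖) * g u) * (‖u‖ / ‖y‖) := by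
                  field_simp
              _ ≤ g y * (‖u‖ / ‖y‖) := by gcongr
              _ = g y / ‖y‖ * ‖u‖ := by ring
          rw [Real.norm_eq_abs]
          apply abs_le'.2
          refine ⟨?_, ?_⟩
          · simpa using key 1 (by simp)
          · simpa using key (-1) (by simp)
      rwa [le_div_iff₀ hyp] at this
    have hle : |(‖g‖⁻¹ • g) (T (‖y‖⁻¹ • y))| ≤ numRadius T := by
      apply le_numRadius
      · rw [norm_smul, norm_inv, norm_norm, inv_mul_cancel₀ hyp.ne']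
      · rw [norm_smul, norm_inv, norm_norm, inv_mul_cancel₀ hgp.ne']
      · rw [_root_.smul_apply, map_smul, hgy, smul_eq_mul, smul_eq_mul]
        field_simp
    have heq : g (T y) = (‖g‖ * ‖y‖) * (‖g‖⁻¹ • g) (T (‖y‖⁻¹ • y)) := by
      rw [_root_.smul_apply, map_smul, map_smul, smul_eq_mul, smul_eq_mul]
      field_simp
    rw [heq, abs_mul, abs_of_pos (mul_pos hgp hyp)]
    calc ‖g‖ * ‖y‖ * |(‖g‖⁻¹ • g) (T (‖y‖⁻¹ • y))| ≤ 1 * |(‖g‖⁻¹ • g) (T (‖y‖⁻¹ • y))| := by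
          gcongr
          nlinarith
      _ ≤ numRadius T := by rw [one_mul]; exact hle
  have h2 : quotNorm T ≤ quotNorm (J.comp (T.comp P)) := by
    refine le_csInf ⟨_, 0, numRadius_zero, rfl⟩ ?_
    rintro t ⟨S, hS, rfl⟩
    have hS' : numRadius (P.comp (S.comp J)) = 0 := by
      apply le_antisymm _ (numRadius_nonneg _)
      apply numRadius_le
      intro y g hy hg hgy
      rw [← hS]
      apply le_numRadius S (x := J y) (f := g.comp P)
      · rw [hJ, hy]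
      · apply le_antisymm
        · apply ContinuousLinearMap.opNorm_le_bound _ zero_le_one
          intro z
          calc ‖g (P z)‖ ≤ ‖g‖ * ‖P z‖ := g.le_opNorm _
            _ ≤ 1 * ‖z‖ := by rw [hg, one_mul, one_mul]; exact hP z
        · calc (1 : ℝ) = (g.comp P) (J y) := by simp [hPJ, hgy]
            _ ≤ ‖(g.comp P) (J y)‖ := le_abs_self _
            _ ≤ ‖g.comp P‖ * ‖J y‖ := ContinuousLinearMap.le_opNorm _ _
            _ = ‖g.comp P‖ := by rw [hJ, hy, mul_one]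
      · simp [hPJ, hgy]
    refine (csInf_le (quot_bddBelow T) ⟨P.comp (S.comp J), hS', rfl⟩).trans ?_
    apply ContinuousLinearMap.opNorm_le_bound _ (norm_nonneg _)
    intro y
    have : (T - P.comp (S.comp J)) y = P ((J.comp (T.comp P) - S) (J y)) := by
      simp [hPJ]
    rw [this]
    calc ‖P ((J.comp (T.comp P) - S) (J y))‖ ≤ ‖(J.comp (T.comp P) - S) (J y)‖ := hP _
      _ ≤ ‖J.comp (T.comp P) - S‖ * ‖J y‖ := ContinuousLinearMap.le_opNorm _ _
      _ = ‖J.comp (T.comp P) - S‖ * ‖y‖ := by rw [hJ]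
  calc k * quotNorm T ≤ k * quotNorm (J.comp (T.comp P)) := by gcongr
    _ ≤ numRadius (J.comp (T.comp P)) := h _
    _ ≤ numRadius T := h1

theorem result (Y W : Type*) [NormedAddCommGroup Y] [NormedSpace ℝ Y] [CompleteSpace Y]
    [Nontrivial Y] [NormedAddCommGroup W] [NormedSpace ℝ W] [CompleteSpace W] [Nontrivial W] :
    secondIndex (WithLp 2 (Y × W)) ≤ min (secondIndex Y) (secondIndex W) := by
  have : Nontrivial (WithLp 2 (Y × W)) := (WithLp.equiv 2 (Y × W)).nontrivial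
  apply le_min
  · have hfst : ∀ z : WithLp 2 (Y × W), ‖z.fst‖ ≤ ‖z‖ := by
      intro z
      rw [WithLp.prod_norm_eq_of_L2]
      exact Real.le_sqrt_of_sq_le (by nlinarith [sq_nonneg ‖z.snd‖])
    apply core (WithLp.fstL 2 ℝ Y W)
      (LinearMap.mkContinuous ((WithLp.linearEquiv 2 ℝ (Y × W)).symm.toLinearMap ∘ₗ
        LinearMap.inl ℝ Y W) 1 (fun u => by
          rw [WithLp.prod_norm_eq_of_L2]; simp))
    · intro u; rfl
    · intro u
      rw [WithLp.prod_norm_eq_of_L2]; simp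
    · exact hfst
    · intro z u hu
      rw [WithLp.prod_norm_eq_of_L2, WithLp.prod_norm_eq_of_L2]
      apply Real.sqrt_le_sqrt
      simp at hu ⊢
      gcongr
  · have hsnd : ∀ z : WithLp 2 (Y × W), ‖z.snd‖ ≤ ‖z‖ := by
      intro z
      rw [WithLp.prod_norm_eq_of_L2]
      exact Real.le_sqrt_of_sq_le (by nlinarith [sq_nonneg ‖z.fst‖])
    apply core (WithLp.sndL 2 ℝ Y W)
      (LinearMap.mkContinuous ((WithLp.linearEquiv 2 ℝ (Y × W)).symm.toLinearMap ∘ₗ
        LinearMap.inr ℝ Y W) 1 (fun u => by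
          rw [WithLp.prod_norm_eq_of_L2]; simp))
    · intro u; rfl
    · intro u
      rw [WithLp.prod_norm_eq_of_L2]; simp
    · exact hsnd
    · intro z u hu
      rw [WithLp.prod_norm_eq_of_L2, WithLp.prod_norm_eq_of_L2]
      apply Real.sqrt_le_sqrt
      simp at hu ⊢
      gcongr

end Pool.Agent.Results.MP_01d095_an.EllTwoSum
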